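import Pool.Agent.Y245.SG.Stm

/-!
SG-BOUR (helper245): Bourget's hypothesis from Siegel's theorem (helper427)
-/

set_option autoImplicit false

open Complex Polynomial Filter Topology

namespace Pool.Agent.Y427.SG

open Pool.Agent.Y245.SG

/-- the polynomials with `q ^ k Bn (k+2) q = Bn 2 q * LL k q` if `Bn 1 q = 0` -/
noncomputable def LL : ℕ → ℤ[X]
  | 0 => 1
  | 1 => 2
  | k + 2 => C ((k : ℤ) + 3) * LL (k + 1) - X * LL k

theorem LL_coeff (k : ℕ) : (LL k).coeff 0 = ((k + 1).factorial : ℤ) ∧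
    (LL (k + 1)).coeff 0 = ((k + 2).factorial : ℤ) := by
  induction k with
  | zero =>
    refine ⟨by simp [LL], ?_⟩
    change (2 : ℤ[X]).coeff 0 = _
    have : (2 : ℤ[X]) = C 2 := rfl
    rw [this, coeff_C_zero]
    rfl
  | succ k ih =>
    refine ⟨ih.2, ?_⟩
    change (C ((k : ℤ) + 3) * LL (k + 1) - X * LL k).coeff 0 = _
    rw [coeff_sub, coeff_C_mul, coeff_X_mul_zero, sub_zero, ih.2, Nat.factorial_succ (k + 2)]
    push_cast
    ring

theorem LL_ne (k : ℕ) : LL k ≠ 0 := by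
  intro h
  have h1 := (LL_coeff k).1
  rw [h, coeff_zero] at h1
  exact (Nat.factorial_ne_zero (k + 1)) (by exact_mod_cast h1.symm)

theorem LL_eq (hB : S_BES) {q : ℂ} (h1 : Bn 1 q = 0) (k : ℕ) :
    q ^ k * Bn (k + 2) q = Bn 2 q * aeval q (LL k) ∧
    q ^ (k + 1) * Bn (k + 3) q = Bn 2 q * aeval q (LL (k + 1)) := by
  induction k with
  | zero =>
    refine ⟨by simp [LL], ?_⟩
    have h2 := (hB 1).2.2.2 q
    rw [h1] at h2
    push_cast at h2
    change q ^ 1 * Bn (1 + 2) q = Bn 2 q * aeval q (2 : ℤ[X])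
    rw [map_ofNat]
    linear_combination h2
  | succ k ih =>
    refine ⟨ih.2, ?_⟩
    have h2 := (hB (k + 2)).2.2.2 q
    change q ^ (k + 2) * Bn (k + 2 + 2) q =
      Bn 2 q * aeval q (C ((k : ℤ) + 3) * LL (k + 1) - X * LL k)
    have e2 := ih.2
    have e1 := ih.1
    change q ^ (k + 1) * Bn (k + 2 + 1) q = _ at e2
    rw [map_sub, map_mul, map_mul, aeval_C, aeval_X]
    simp only [algebraMap_int_eq, eq_intCast]
    push_cast at h2 ⊢
    linear_combination q ^ (k + 1) * h2 + ((k : ℂ) + 3) * e2 - q * e1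

theorem bour : S_BOUR := by
  intro hB hN hS m q hm hq ⟨h1, h2⟩
  obtain ⟨k, rfl⟩ : ∃ k, m = k + 2 := ⟨m - 2, by omega⟩
  have h3 : Bn 2 q ≠ 0 := fun h => hN hB 1 q ⟨h1, h⟩
  have h4 := (LL_eq hB h1 k).1
  rw [h2, mul_zero] at h4
  have h5 : aeval q (LL k) = 0 := (mul_eq_zero.1 h4.symm).resolve_left h3
  have h6 : IsAlgebraic ℤ q := ⟨LL k, LL_ne k, h5⟩
  exact hS q hq ((IsFractionRing.isAlgebraic_iff ℤ ℚ ℂ).1 h6) h1

end Pool.Agent.Y427.SG
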